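import Pool.Agent.H884Z.OP.Main

set_option autoImplicit false

namespace Pool.Agent.Results.MP_5ab436_an.ABounded

open H884Z.OP MeasureTheory
open scoped ENNReal

/-- For every `d ≥ 1`, `k ≥ 1` and `0 < p ≤ 1`, every optimal potential for the `k`-th eigenvalue
is infinite almost everywhere outside some ball. -/
theorem result : ∀ (d k : ℕ) (p : ℝ), 1 ≤ d → 1 ≤ k → 0 < p → p ≤ 1 →
    ∀ V : E d → ℝ≥0∞, Optimal p k V → ∃ R : ℝ, ∀ᵐ x, V x < ⊤ → ‖x‖ ≤ R := main

end Pool.Agent.Results.MP_5ab436_an.ABounded
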